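import Pool.Agent.Lib.MP_354fda_al.Upper

/-!
# All local `v`-numbers of the binomial edge ideal of a crown graph are equal to four
-/

set_option autoImplicit false

namespace Pool.Agent.Results.MP_354fda_al.CrownLocalV

open Pool.Agent.Lib.MP_354fda_al

/-- For every field `K`, every `n ≥ 4` and every `T ∈ 𝒞(C_{n,n})`, the least degree of a
homogeneous `f` with `J_G : f = P_T(G)` is `4`, where `G = C_{n,n}`. -/
theorem result (K : Type*) [Field K] (n : ℕ) (hn : 4 ≤ n) (T : Set (Fin n × Bool))
    (hT : T ∈ cutSets (crown n)) :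
    IsLeast (colonDegrees (binomialEdgeIdeal K (crown n)) (primeOf K (crown n) T)) 4 := by
  refine ⟨?_, fun d hd => four_le hn T hd⟩
  rcases classify (isCut_of_mem_cutSets hT) with rfl | ⟨t, rfl⟩ | ⟨t, i, rfl⟩ | ⟨i, j, hij, rfl⟩
  · exact upper_empty hn
  · exact upper_side hn t
  · exact upper_sideMinus hn t i
  · exact upper_pairCut hn hij

end Pool.Agent.Results.MP_354fda_al.CrownLocalV
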